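import Pool.Agent.H828R3.GP.Three

set_option autoImplicit false

/-! Finite sets met by the `3x+d` orbits: power savings, with explicit sets of polynomial size. -/

namespace Pool.Agent.Results.MP_d0d59f_nt.ExplicitFiniteSet

/-- the `3x+d` map on the integers -/
def T (d x : ℤ) : ℤ := if x % 2 = 0 then x / 2 else (3 * x + d) / 2

/-- number of the integers `x` with `|x| ≤ X` and the property `P` -/
noncomputable def count (P : ℤ → Prop) (X : ℝ) : ℝ := ({x : ℤ | |(x : ℝ)| ≤ X ∧ P x}.ncard : ℝ)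

theorem T_eq (d : ℤ) : T d = Pool.Agent.H499R2.ND.Td d := rfl

/-- The exponent is positive: `1 - H(log_3 2) > 0.049`, `H` the binary entropy in bits. For every odd
`d` and every `0 < c < 1 - H(log_3 2)` there is `C` such that (1) if `y ≥ 1` and `F` is a set met by the
orbits of all integers of `[-y, y]`, then for every `X ≥ 1` at most `C X / y^c` of the integers `x` with
`|x| ≤ X` have an orbit disjoint from `F`; (2) for all `0 < ε ≤ 1` and `X ≥ 1` all but `ε X` of the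
integers `x` with `|x| ≤ X` have an orbit that enters the finite set `[-(C/ε)^(1/c), (C/ε)^(1/c)]`. -/
theorem result : 0.049 < 1 - Real.binEntropy (Real.log 2 / Real.log 3) / Real.log 2 ∧
    ∀ d : ℤ, d % 2 = 1 → ∀ c : ℝ, 0 < c →
      c < 1 - Real.binEntropy (Real.log 2 / Real.log 3) / Real.log 2 →
      ∃ C : ℝ, 0 < C ∧
        (∀ y : ℝ, 1 ≤ y → ∀ F : Set ℤ, (∀ x : ℤ, |(x : ℝ)| ≤ y → ∃ n : ℕ, (T d)^[n] x ∈ F) →
          ∀ X : ℝ, 1 ≤ X → count (fun x => ∀ n : ℕ, (T d)^[n] x ∉ F) X ≤ C * X / y ^ c) ∧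
        (∀ ε X : ℝ, 0 < ε → ε ≤ 1 → 1 ≤ X →
          count (fun x => ∀ n : ℕ, (C / ε) ^ (1 / c) < |(((T d)^[n] x : ℤ) : ℝ)|) X ≤ ε * X) := by
  refine ⟨by have := Pool.Agent.H319R2.beta_lt; unfold Pool.Agent.H319R2.beta at this; linarith, ?_⟩
  intro d hd c hc0 hc
  obtain ⟨C, hC, h⟩ := Pool.Agent.H828R3.GP.three (Int.odd_iff.2 hd) hc0 hc
  refine ⟨C + 1, by linarith, ?_, ?_⟩
  · intro y hy F hF X hX
    have hyc : 0 < y ^ c := Real.rpow_pos_of_pos (by linarith) _
    have hfin : {x : ℤ | |(x : ℝ)| ≤ X ∧ ∀ n : ℕ, y < |(((T d)^[n] x : ℤ) : ℝ)|}.Finite := by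
      apply (Set.finite_Icc (-⌈X⌉) ⌈X⌉).subset
      rintro x ⟨hx, -⟩
      have h1 := abs_le.1 hx
      have h2 := Int.le_ceil X
      rw [Set.mem_Icc]
      constructor
      · have : (-(⌈X⌉ : ℤ) : ℝ) ≤ x := by linarith
        exact_mod_cast this
      · have : (x : ℝ) ≤ (⌈X⌉ : ℤ) := by linarith
        exact_mod_cast this
    have hsub : {x : ℤ | |(x : ℝ)| ≤ X ∧ ∀ n : ℕ, (T d)^[n] x ∉ F} ⊆
        {x : ℤ | |(x : ℝ)| ≤ X ∧ ∀ n : ℕ, y < |(((T d)^[n] x : ℤ) : ℝ)|} := by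
      rintro x ⟨h1, h2⟩
      refine ⟨h1, fun n => ?_⟩
      by_contra hcon
      push Not at hcon
      obtain ⟨j, hj⟩ := hF _ hcon
      rw [← Function.iterate_add_apply] at hj
      exact h2 _ hj
    have h1 : count (fun x => ∀ n : ℕ, (T d)^[n] x ∉ F) X ≤ C * X / y ^ c := by
      unfold count
      refine le_trans ?_ (h X y hX hy)
      exact_mod_cast Set.ncard_le_ncard hsub hfin
    refine h1.trans ?_
    apply div_le_div_of_nonneg_right _ hyc.le
    nlinarith
  · intro ε X hε hε1 hX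
    have hb : 1 ≤ (C + 1) / ε := by rw [le_div_iff₀ hε]; linarith
    have hy : 1 ≤ ((C + 1) / ε) ^ (1 / c) := Real.one_le_rpow hb (by positivity)
    have h1 := h X _ hX hy
    unfold count
    refine h1.trans ?_
    rw [← Real.rpow_mul (by linarith), one_div, inv_mul_cancel₀ hc0.ne', Real.rpow_one]
    rw [div_le_iff₀ (by linarith)]
    have : ε * X * ((C + 1) / ε) = (C + 1) * X := by field_simp
    rw [this]
    nlinarith

end Pool.Agent.Results.MP_d0d59f_nt.ExplicitFiniteSet
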