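import Mathlib
import Pool.Agent.H284R3.RD.Sets

set_option autoImplicit false

namespace Pool.Agent.Results.MP_d0d59f_nt.RegularInvariants

universe u v

/-- The `3x+d` map on the integers. -/
def T (d x : ℤ) : ℤ := if x % 2 = 0 then x / 2 else (3 * x + d) / 2

/-- The `k`-kernel of the sequence `c`: the sequences `n ↦ c (k ^ l * n + r)` with `r < k ^ l`. -/
def ker {M : Type v} (k : ℕ) (c : ℕ → M) : Set (ℕ → M) :=
  {f | ∃ l r : ℕ, r < k ^ l ∧ f = fun n => c (k ^ l * n + r)}

/-- `x` and `y` agree modulo `d` up to a factor `2 ^ i * 3 ^ j`. -/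
def Rel (d x y : ℤ) : Prop := ∃ i j : ℕ, x ≡ 2 ^ i * 3 ^ j * y [ZMOD d]

/-- The orbit of `x` under the `3x+d` map meets `F` infinitely often. -/
def Meets (d : ℤ) (F : Set ℤ) (x : ℤ) : Prop := ∀ n : ℕ, ∃ j, n ≤ j ∧ (T d)^[j] x ∈ F

theorem T_eq (d : ℤ) : T d = Pool.Agent.H284R3.RD.T d := rfl

theorem meets_T (d : ℤ) (F : Set ℤ) (x : ℤ) : Meets d F (T d x) ↔ Meets d F x := by
  constructor
  · intro h n
    obtain ⟨j, hj, hF⟩ := h n
    exact ⟨j + 1, by omega, by rwa [Function.iterate_succ_apply]⟩
  · intro h n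
    obtain ⟨j, hj, hF⟩ := h (n + 1)
    obtain ⟨i, rfl⟩ : ∃ i, j = i + 1 := ⟨j - 1, by omega⟩
    exact ⟨i, by omega, by rwa [Function.iterate_succ_apply] at hF⟩

theorem zero_iter (d : ℤ) (j : ℕ) : (T d)^[j] 0 = 0 := by
  induction j with
  | zero => rfl
  | succ j ih =>
    rw [Function.iterate_succ_apply]
    have : T d 0 = 0 := by unfold T; norm_num
    rw [this, ih]

/-- Let `d` be odd and prime to `3`, and write `x ~ y` when `x = 2^i 3^j y` modulo `d` for some
`i, j`.
(1) Let `d > 0`, and let the function `c` be constant along the orbits of positive integers and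
`k`-regular (values in a module over a left Noetherian ring).  Then `c x = c y` for all positive
`x ~ y`.
(2) For every `d`, if `c` is constant along all orbits and its restrictions to both half lines are
regular (possibly in different bases), then `c x = c y` whenever `x ~ y` have the same sign.
(3) Let `d > 0`.  A set `A` of integers such that `x` lies in `A` iff `T x` does, for all positive
`x`, has a `k`-automatic positive part for some `k ≥ 2` iff the positive part of `A` is a union of
classes of `~`.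
(4) There is a finite set which meets all orbits iff there is a finite set `F` such that the set of
the integers whose orbit meets `F` infinitely often contains `[-|d|, |d|]` and is automatic on both
half lines. -/
theorem result (d : ℤ) (hd : Odd d) (h3 : ¬ (3 : ℤ) ∣ d) :
    (∀ (R : Type u) (M : Type v) [Ring R] [IsNoetherianRing R] [AddCommGroup M] [Module R M]
      (c : ℤ → M) (k : ℕ), 0 < d → 2 ≤ k → (∀ x, 0 < x → c (T d x) = c x) →
      (Submodule.span R (ker k (fun n : ℕ => c n))).FG →
      ∀ x y, 0 < x → 0 < y → Rel d x y → c x = c y) ∧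
    (∀ (R : Type u) (M : Type v) [Ring R] [IsNoetherianRing R] [AddCommGroup M] [Module R M]
      (c : ℤ → M) (k k' : ℕ), 2 ≤ k → 2 ≤ k' → (∀ x, c (T d x) = c x) →
      (Submodule.span R (ker k (fun n : ℕ => c n))).FG →
      (Submodule.span R (ker k' (fun n : ℕ => c (-n)))).FG →
      ∀ x y, (0 < x ∧ 0 < y) ∨ (x < 0 ∧ y < 0) → Rel d x y → c x = c y) ∧
    (∀ A : Set ℤ, 0 < d → (∀ x, 0 < x → (x ∈ A ↔ T d x ∈ A)) →
      ((∃ k, 2 ≤ k ∧ (ker k (fun n : ℕ => (n : ℤ) ∈ A)).Finite) ↔
        ∀ x y, 0 < x → 0 < y → Rel d x y → (x ∈ A ↔ y ∈ A))) ∧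
    ((∃ F : Set ℤ, F.Finite ∧ ∀ x, ∃ j, (T d)^[j] x ∈ F) ↔
      ∃ F : Set ℤ, F.Finite ∧ (∀ x, |x| ≤ |d| → Meets d F x) ∧
        (∃ k, 2 ≤ k ∧ (ker k (fun n : ℕ => Meets d F n)).Finite) ∧
        (∃ k, 2 ≤ k ∧ (ker k (fun n : ℕ => Meets d F (-n))).Finite)) := by
  have hd' : d % 2 = 1 := Int.odd_iff.mp hd
  have hd0 : d ≠ 0 := by rintro rfl; norm_num at hd'
  refine ⟨?_, ?_, ?_, ?_⟩
  · intro R M _ _ _ _ c k hpos hk h hfin x y hx hy hxy
    exact Pool.Agent.H284R3.RD.pos_only hd' h3 hpos h hk hfin hx hy hxy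
  · intro R M _ _ _ _ c k k' hk hk' h hfin hfin' x y hxy hrel
    exact Pool.Agent.H284R3.RD.two_sided hd' h3 h hk hfin hk' hfin' hxy hrel
  · intro A hpos hA
    constructor
    · rintro ⟨k, hk, hfin⟩ x y hx hy hrel
      classical
      set c : ℤ → ZMod 2 := fun x => if x ∈ A then 1 else 0 with hc
      have h1 : ∀ x, 0 < x → c (T d x) = c x := by
        intro x hx
        simp only [hc]
        rw [show (x ∈ A) = (T d x ∈ A) from propext (hA x hx)]
      have h2 : (Submodule.span (ZMod 2) (ker k (fun n : ℕ => c n))).FG := by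
        have := Pool.Agent.H284R3.RD.fg_of_finite (k := k) (A := fun n : ℕ => (n : ℤ) ∈ A) hfin
        have e : (fun n : ℕ => c n) = Pool.Agent.H284R3.RD.ind (fun n : ℕ => (n : ℤ) ∈ A) := by
          funext n
          simp only [hc, Pool.Agent.H284R3.RD.ind]
        rw [e]
        exact this
      have h3 := Pool.Agent.H284R3.RD.pos_only (R := ZMod 2) hd' h3 hpos h1 hk h2 hx hy hrel
      simp only [hc] at h3
      by_cases hxA : x ∈ A <;> by_cases hyA : y ∈ A <;> simp_all
    · intro h
      refine ⟨2, le_rfl, Pool.Agent.H284R3.RD.finite_of_periodic (D := d.natAbs) (k := 2)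
        (A := fun n : ℕ => (n : ℤ) ∈ A) (Int.natAbs_pos.mpr hd0) ?_ le_rfl⟩
      intro n hn
      apply h _ _ (by omega) (by omega)
      refine ⟨0, 0, ?_⟩
      rw [pow_zero, pow_zero, one_mul, one_mul]
      push_cast
      rw [abs_of_pos hpos]
      exact Int.modEq_iff_dvd.mpr ⟨-1, by ring⟩
  · constructor
    · rintro ⟨F, hF, hall⟩
      have hM : ∀ x, Meets d F x := by
        intro x n
        obtain ⟨j, hj⟩ := hall ((T d)^[n] x)
        exact ⟨j + n, by omega, by rwa [← Function.iterate_add_apply] at hj⟩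
      refine ⟨F, hF, fun x _ => hM x, ⟨2, le_rfl, ?_⟩, ⟨2, le_rfl, ?_⟩⟩
      · exact Pool.Agent.H284R3.RD.finite_of_periodic (D := 1) (k := 2)
          (A := fun n : ℕ => Meets d F n) le_rfl (fun n _ => ⟨fun _ => hM _, fun _ => hM _⟩) le_rfl
      · exact Pool.Agent.H284R3.RD.finite_of_periodic (D := 1) (k := 2)
          (A := fun n : ℕ => Meets d F (-n)) le_rfl (fun n _ => ⟨fun _ => hM _, fun _ => hM _⟩) le_rfl
    · rintro ⟨F, hF, hsmall, ⟨k, hk, hfin⟩, ⟨k', hk', hfin'⟩⟩
      refine ⟨F, hF, ?_⟩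
      classical
      set c : ℤ → ZMod 2 := fun x => if Meets d F x then 1 else 0 with hc
      have h1 : ∀ x, c (T d x) = c x := by
        intro x
        simp only [hc]
        rw [show (Meets d F (T d x)) = (Meets d F x) from propext (meets_T d F x)]
      have e1 : (Submodule.span (ZMod 2) (ker k (fun n : ℕ => c n))).FG := by
        have := Pool.Agent.H284R3.RD.fg_of_finite (k := k) (A := fun n : ℕ => Meets d F n) hfin
        have e : (fun n : ℕ => c n) = Pool.Agent.H284R3.RD.ind (fun n : ℕ => Meets d F n) := by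
          funext n
          simp only [hc, Pool.Agent.H284R3.RD.ind]
        rw [e]
        exact this
      have e2 : (Submodule.span (ZMod 2) (ker k' (fun n : ℕ => c (-n)))).FG := by
        have := Pool.Agent.H284R3.RD.fg_of_finite (k := k') (A := fun n : ℕ => Meets d F (-n)) hfin'
        have e : (fun n : ℕ => c (-n)) = Pool.Agent.H284R3.RD.ind (fun n : ℕ => Meets d F (-n)) := by
          funext n
          simp only [hc, Pool.Agent.H284R3.RD.ind]
        rw [e]
        exact this
      have key : ∀ x y, ((0 < x ∧ 0 < y) ∨ (x < 0 ∧ y < 0)) → Rel d x y → (Meets d F y) →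
          Meets d F x := by
        intro x y hxy hrel hy
        have h5 := Pool.Agent.H284R3.RD.two_sided (R := ZMod 2) hd' h3 h1 hk e1 hk' e2 hxy hrel
        simp only [hc] at h5
        by_contra hx
        rw [if_neg hx, if_pos hy] at h5
        exact absurd h5 (by decide)
      intro x
      have hMx : Meets d F x := by
        rcases lt_trichotomy x 0 with hx | hx | hx
        · -- a representative in `[-|d|, -1]`
          have h6 : 0 ≤ (-x - 1) % |d| := Int.emod_nonneg _ (abs_ne_zero.mpr hd0)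
          have h7 : (-x - 1) % |d| < |d| := Int.emod_lt_of_pos _ (abs_pos.mpr hd0)
          refine key x (-((-x - 1) % |d| + 1)) (Or.inr ⟨hx, by omega⟩) ⟨0, 0, ?_⟩
            (hsmall _ (by rw [abs_neg, abs_of_pos (by omega)]; omega))
          rw [pow_zero, pow_zero, one_mul, one_mul]
          apply Int.modEq_iff_dvd.mpr
          have h8 := Int.mul_ediv_add_emod (-x - 1) |d|
          rw [← abs_dvd]
          exact ⟨(-x - 1) / |d|, by linarith⟩
        · rw [hx]
          exact hsmall 0 (by simp)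
        · have h6 : 0 ≤ (x - 1) % |d| := Int.emod_nonneg _ (abs_ne_zero.mpr hd0)
          have h7 : (x - 1) % |d| < |d| := Int.emod_lt_of_pos _ (abs_pos.mpr hd0)
          refine key x ((x - 1) % |d| + 1) (Or.inl ⟨hx, by omega⟩) ⟨0, 0, ?_⟩
            (hsmall _ (by rw [abs_of_pos (by omega)]; omega))
          rw [pow_zero, pow_zero, one_mul, one_mul]
          apply Int.modEq_iff_dvd.mpr
          have h8 := Int.mul_ediv_add_emod (x - 1) |d|
          rw [← abs_dvd]
          exact ⟨-((x - 1) / |d|), by linarith⟩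
      obtain ⟨j, _, hj⟩ := hMx 0
      exact ⟨j, hj⟩

end Pool.Agent.Results.MP_d0d59f_nt.RegularInvariants
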