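import Mathlib
import Pool.Agent.H547R3.Sub.Tqk2

set_option autoImplicit false

namespace Pool.Agent.Results.MP_d0d59f_nt.SimpleParityUniform

/-- The `3x+d` map on the integers. -/
def T (d x : ℤ) : ℤ := if x % 2 = 0 then x / 2 else (3 * x + d) / 2

/-- The factor `w a, w (a+1), ..., w (b-1)` of the sequence `w` has period `π`. -/
def HasPeriod (w : ℕ → ℤ) (π a b : ℕ) : Prop := ∀ j, a ≤ j → j + π < b → w (j + π) = w j

/-- The word `w 0, w 1, ..., w (n-1)` is a concatenation of `s` words (cut at `0 = t 0 ≤ t 1 ≤ ... ≤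
t s = n`), each of which has some period `π` with `1 ≤ π ≤ ℓ`. -/
def Splits (w : ℕ → ℤ) (ℓ s n : ℕ) : Prop :=
  ∃ t : ℕ → ℕ, t 0 = 0 ∧ t s = n ∧ (∀ i < s, t i ≤ t (i + 1)) ∧
    ∀ i < s, ∃ π, 1 ≤ π ∧ π ≤ ℓ ∧ HasPeriod w π (t i) (t (i + 1))

open Pool.Agent.H547R3.Sub in
lemma T_eq (d : ℤ) : T d = Tm (3 : ℕ) d := by
  funext x; simp [T, Tm]

open Pool.Agent.H547R3.Sub in
lemma dec_of_splits {d x : ℤ} {ℓ m n : ℕ} (h : Splits (fun i => (T d)^[i] x % 2) ℓ m n) :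
    Dec (par (3 : ℕ) d x) ℓ m 0 (0 + n) := by
  obtain ⟨t, h0, hm, hmono, hper⟩ := h
  refine ⟨t, h0, by rw [zero_add, hm], hmono, fun i hi => ?_⟩
  obtain ⟨π, h1, h2, h3⟩ := hper i hi
  refine ⟨π, h1, h2, fun j hj1 hj2 => ?_⟩
  have h4 := h3 j hj1 hj2
  simp only [T_eq] at h4
  exact par_int _ _ _ _ _ h4

open Pool.Agent.H547R3.Sub in
/-- For all `s` and `η > 0` there are `ε > 0` and `X` such that for every odd `d` and every integer
`x`, every `n ≥ max(X, (1 + η) log_2 |x|)` with `|d| ≤ exp (ε n)` and every `ℓ ≤ ε n`: if the word of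
the first `n` parities of the `T_d`-orbit of `x` is a concatenation of `s` words each having a period
at most `ℓ`, then the orbit enters within `n` steps a cycle of length at most `ℓ`. -/
theorem result (s : ℕ) (η : ℝ) (hη : 0 < η) :
    ∃ ε : ℝ, 0 < ε ∧ ∃ X : ℕ, ∀ (d x : ℤ) (n ℓ : ℕ), d % 2 = 1 → X ≤ n →
      (1 + η) * Real.logb 2 |(x : ℝ)| ≤ n → |(d : ℝ)| ≤ Real.exp (ε * n) → (ℓ : ℝ) ≤ ε * n →
      Splits (fun i => (T d)^[i] x % 2) ℓ s n →
      ∃ j π, 1 ≤ π ∧ π ≤ ℓ ∧ j + π ≤ n ∧ (T d)^[j + π] x = (T d)^[j] x := by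
  have hl2 : 0 < Real.log 2 := Real.log_pos (by norm_num)
  obtain ⟨ε, hε, n0, hg⟩ := growthT2 (q := 3) Nat.prime_three (by norm_num) s
    (η / (1 + η) * Real.log 2) (by positivity)
  refine ⟨ε, hε, n0, fun d x n ℓ hd hn hx hdn hℓ hS => ?_⟩
  obtain ⟨j, π, -, h1, h2, h3, h4⟩ := hg n hn ℓ hℓ d hd hdn x 0 (by
    simp only [Function.iterate_zero, id]
    rcases eq_or_ne x 0 with h0 | h0
    · rw [h0]
      simp only [Int.cast_zero, abs_zero]
      positivity
    · have hy0 : (0 : ℝ) < |(x : ℝ)| := by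
        have : (x : ℝ) ≠ 0 := by exact_mod_cast h0
        positivity
      rw [← Real.exp_log (show (0 : ℝ) < 2 ^ n by positivity), ← Real.exp_add,
        ← Real.log_le_iff_le_exp hy0, Real.log_pow]
      rw [Real.logb, ← mul_div_assoc, div_le_iff₀ hl2] at hx
      have h1 : 0 < 1 + η := by linarith
      have h2 : Real.log |(x : ℝ)| ≤ n * Real.log 2 / (1 + η) := by
        rw [le_div_iff₀ h1]; linarith
      refine h2.trans (le_of_eq ?_)
      field_simp
      ring) (dec_of_splits hS)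
  rw [zero_add] at h3
  exact ⟨j, π, h1, h2, h3, by rw [T_eq]; exact h4⟩

end Pool.Agent.Results.MP_d0d59f_nt.SimpleParityUniform
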