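import Pool.Agent.H668.SM.D

set_option autoImplicit false

/-!
The `3x+d` maps: almost every integer `x` coalesces with all its small affine images
`2^a 3^b x + d r`, uniformly in `d`.

Author: helper668. Uses the coalescence chain and the densities of invariant sets of helper499 and
team (Pool/Agent/H499R2).
-/

namespace Pool.Agent.Results.MP_d0d59f_nt.SmoothAffineImages

open Filter Topology

/-- The map `T_d` on the integers. -/
def T (d x : ℤ) : ℤ := if x % 2 = 0 then x / 2 else (3 * x + d) / 2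

/-- The positive integers with the property `P` have natural density `l`. -/
def HasDensity (P : ℕ → Prop) (l : ℝ) : Prop :=
  Tendsto (fun N : ℕ => ({n : ℕ | 1 ≤ n ∧ n ≤ N ∧ P n}.ncard : ℝ) / N) atTop (𝓝 l)

/-- The triple `(a, b, r)` is small for `n`: `(a + b + |r|) ^ 9 ≤ log₂ n`. -/
def Small (n a b : ℕ) (r : ℤ) : Prop := (a + b + r.natAbs) ^ 9 ≤ Nat.log 2 n

/-- The orbit of `x` under `T_d` meets `F` infinitely often. -/
def MeetsInf (d : ℤ) (F : Finset ℤ) (x : ℤ) : Prop := ∀ J : ℕ, ∃ j, J ≤ j ∧ (T d)^[j] x ∈ F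

/-- (1) There is `K` such that for all `N ≥ 16`, all `m`, all odd `d` and both signs `s`, with `t`
the integer part of `(log₂ N) / 4`: for all but `K (m + 1)^4 √(log log N / log N) N` of the positive
integers `n ≤ N` one has `T_d^t (s n) = T_d^(t+a) (2^a 3^b s n + d r)` for all `a, b, r` with
`a + b ≤ m` and `|r| ≤ m`.
(2) Let `d` be odd and prime to `3` and let `S` be invariant under `T_d` (`x ∈ S` if and only if
`T_d x ∈ S`). There is `δ`, positive if `S` contains an integer of sign `s` prime to `3`, such that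
the `n` for which all the integers `2^a 3^b s n + d r`, `(a, b, r)` small for `n`, are in `S` have
density `δ`, and those for which none of them is in `S` have density `1 - δ`.
(3) Let `d` be odd and prime to `3`. No finite set meets all orbits of `T_d` if and only if for every
finite `F` there is a sign `s` such that the `n` for which none of the integers `2^a 3^b s n + d r`,
`(a, b, r)` small for `n`, has an orbit meeting `F` infinitely often have a positive density. -/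
theorem result :
    (∃ K : ℝ, 0 < K ∧ ∀ N : ℕ, 16 ≤ N → ∀ m : ℕ, ∀ d : ℤ, d % 2 = 1 →
      ∀ s : ℤ, (s = 1 ∨ s = -1) →
      ({n : ℕ | 1 ≤ n ∧ n ≤ N ∧ ¬ ∀ (a b : ℕ) (r : ℤ), a + b ≤ m → |r| ≤ m →
        (T d)^[Nat.log 2 N / 4] (s * (n : ℤ)) =
          (T d)^[Nat.log 2 N / 4 + a] (2 ^ a * 3 ^ b * (s * (n : ℤ)) + d * r)}.ncard : ℝ) ≤
        K * ((m : ℝ) + 1) ^ 4 * √ (Real.log (Real.log N) / Real.log N) * N) ∧
    ∀ d : ℤ, d % 2 = 1 → ¬ (3 : ℤ) ∣ d →
      (∀ S : Set ℤ, (∀ x : ℤ, x ∈ S ↔ T d x ∈ S) → ∀ s : ℤ, (s = 1 ∨ s = -1) →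
        ∃ δ : ℝ, 0 ≤ δ ∧ δ ≤ 1 ∧ ((∃ x ∈ S, 0 < s * x ∧ ¬ (3 : ℤ) ∣ x) → 0 < δ) ∧
          HasDensity (fun n => ∀ (a b : ℕ) (r : ℤ), Small n a b r →
            2 ^ a * 3 ^ b * (s * (n : ℤ)) + d * r ∈ S) δ ∧
          HasDensity (fun n => ∀ (a b : ℕ) (r : ℤ), Small n a b r →
            2 ^ a * 3 ^ b * (s * (n : ℤ)) + d * r ∉ S) (1 - δ)) ∧
      ((¬ ∃ F : Finset ℤ, ∀ x : ℤ, ∃ j : ℕ, (T d)^[j] x ∈ F) ↔
        ∀ F : Finset ℤ, ∃ s : ℤ, (s = 1 ∨ s = -1) ∧ ∃ η : ℝ, 0 < η ∧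
          HasDensity (fun n => ∀ (a b : ℕ) (r : ℤ), Small n a b r →
            ¬ MeetsInf d F (2 ^ a * 3 ^ b * (s * (n : ℤ)) + d * r)) η) :=
  ⟨Pool.Agent.H668.SM.count_Td, fun _ hd hd3 =>
    ⟨fun S hS _ hs => Pool.Agent.H668.SM.inv_smooth_d hd hd3 hs (S := S) hS,
      Pool.Agent.H668.SM.q1_d hd hd3⟩⟩

end Pool.Agent.Results.MP_d0d59f_nt.SmoothAffineImages
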